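import Mathlib

set_option autoImplicit false

open Set
open scoped ENNReal

namespace Pool.Agent.Results.MP_61cfb3_pr.Retrace

/-- Left endpoints of the connected components of `{t ≥ 0 : S t = H}`. -/
def starts (S : ℝ → ℝ) (H : ℝ) : Set ℝ :=
  {t | (0 ≤ t ∧ S t = H) ∧ IsLeast (connectedComponentIn {t | 0 ≤ t ∧ S t = H} t) t}

/-- Time of visit number `i + 1` (infinite if there are at most `i` visits). -/
noncomputable def visitTime (S : ℝ → ℝ) (H : ℝ) (i : ℕ) : ℝ≥0∞ :=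
  ⨅ (t : ℝ) (_ : ((i + 1 : ℕ) : ℕ∞) ≤ (starts S H ∩ Iic t).encard), ENNReal.ofReal t

/-- Expected capture time. -/
noncomputable def expTime (p : ℝ) (S : ℝ → ℝ) (H : ℝ) : ℝ≥0∞ :=
  ∑' i : ℕ, ENNReal.ofReal ((1 - p) ^ i * p) * visitTime S H i

/-- Guaranteed cost `v(S)`. -/
noncomputable def value (p : ℝ) (S : ℝ → ℝ) : ℝ≥0∞ :=
  ⨆ (H : ℝ) (_ : H ≠ 0), expTime p S H / ENNReal.ofReal |H|

/-- Admissible trajectory. -/
def Traj (S : ℝ → ℝ) : Prop :=
  S 0 = 0 ∧ (∀ s t, 0 ≤ s → 0 ≤ t → |S s - S t| ≤ |s - t|) ∧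
    ∀ H ≠ 0, ∀ T, (starts S H ∩ Iic T).Finite

noncomputable def ph (b d s : ℝ) : ℝ := max (min s (2 * b - s)) (min (s - 2 * d) (2 + 2 * d - s))

lemma ph_lip (b d s t : ℝ) : |ph b d s - ph b d t| ≤ |s - t| := by
  unfold ph
  refine (abs_max_sub_max_le_max _ _ _ _).trans (max_le ?_ ?_) <;>
  refine (abs_min_sub_min_le_max _ _ _ _).trans (max_le ?_ ?_)
  · exact le_rfl
  · rw [abs_sub_comm s t]; apply le_of_eq; congr 1; ring
  · apply le_of_eq; congr 1; ring
  · rw [abs_sub_comm s t]; apply le_of_eq; congr 1; ring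

structure Par (a b d : ℝ) : Prop where
  a1 : 1 < a
  d0 : 0 ≤ d
  db : d ≤ b
  b1 : b ≤ 1 / 2

noncomputable def TT (a d : ℝ) (j : ℤ) : ℝ := (2 + 2 * d) / (a - 1) * a ^ j

noncomputable def JJ (a d t : ℝ) : ℤ := Classical.epsilon fun j => TT a d j ≤ t ∧ t < TT a d (j + 1)

noncomputable def SS (a b d t : ℝ) : ℝ :=
  if 0 < t then (-1) ^ JJ a d t * a ^ JJ a d t * ph b d ((t - TT a d (JJ a d t)) / a ^ JJ a d t)
  else 0

variable {a b d : ℝ}

lemma K_pos (h : Par a b d) : 0 < (2 + 2 * d) / (a - 1) :=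
  div_pos (by linarith [h.d0]) (by linarith [h.a1])

lemma zp (h : Par a b d) (j : ℤ) : 0 < a ^ j := zpow_pos (by linarith [h.a1]) j

lemma TT_pos (h : Par a b d) (j : ℤ) : 0 < TT a d j := mul_pos (K_pos h) (zp h j)

lemma TT_mono (h : Par a b d) : StrictMono (TT a d) := fun _ _ hij =>
  mul_lt_mul_of_pos_left (zpow_lt_zpow_right₀ h.a1 hij) (K_pos h)

lemma TT_succ (h : Par a b d) (j : ℤ) : TT a d (j + 1) = TT a d j + a ^ j * (2 + 2 * d) := by
  have h1 : a - 1 ≠ 0 := by linarith [h.a1]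
  unfold TT
  rw [zpow_add_one₀ (by linarith [h.a1])]
  field_simp
  ring

lemma JJ_spec (h : Par a b d) {t : ℝ} (ht : 0 < t) :
    TT a d (JJ a d t) ≤ t ∧ t < TT a d (JJ a d t + 1) := by
  apply Classical.epsilon_spec (p := fun j => TT a d j ≤ t ∧ t < TT a d (j + 1))
  obtain ⟨j, h1, h2⟩ := exists_mem_Ico_zpow (div_pos ht (K_pos h)) h.a1
  rw [le_div_iff₀ (K_pos h)] at h1
  rw [div_lt_iff₀ (K_pos h)] at h2
  exact ⟨j, by unfold TT; linarith, by unfold TT; linarith⟩

lemma SS_eq (h : Par a b d) (j : ℤ) {s : ℝ} (h0 : 0 ≤ s) (h1 : s < 2 + 2 * d) :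
    SS a b d (TT a d j + a ^ j * s) = (-1) ^ j * a ^ j * ph b d s := by
  have hz := zp h j
  have h2 : TT a d j ≤ TT a d j + a ^ j * s := by nlinarith
  have h3 : TT a d j + a ^ j * s < TT a d (j + 1) := by rw [TT_succ h]; nlinarith
  have ht : 0 < TT a d j + a ^ j * s := (TT_pos h j).trans_le h2
  have h4 := JJ_spec h ht
  have h5 : JJ a d (TT a d j + a ^ j * s) = j := by
    have e1 := (TT_mono h).lt_iff_lt.1 (h4.1.trans_lt h3)
    have e2 := (TT_mono h).lt_iff_lt.1 (h2.trans_lt h4.2)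
    omega
  unfold SS
  rw [if_pos ht, h5, add_sub_cancel_left, mul_div_cancel_left₀ _ hz.ne']

lemma decomp (h : Par a b d) {t : ℝ} (ht : 0 < t) :
    ∃ (j : ℤ) (s : ℝ), 0 ≤ s ∧ s < 2 + 2 * d ∧ t = TT a d j + a ^ j * s := by
  obtain ⟨h1, h2⟩ := JJ_spec h ht
  have hz := zp h (JJ a d t)
  refine ⟨JJ a d t, (t - TT a d (JJ a d t)) / a ^ JJ a d t, div_nonneg (by linarith) hz.le, ?_, ?_⟩
  · rw [div_lt_iff₀ hz]; rw [TT_succ h] at h2; linarith
  · field_simp; ring

lemma ph_zero (h : Par a b d) : ph b d 0 = 0 := by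
  have := h.d0; have := h.db
  unfold ph
  rw [min_eq_left (by linarith), max_eq_left (min_le_of_left_le (by linarith))]

lemma ph_end (h : Par a b d) : ph b d (2 + 2 * d) = 0 := by
  have := h.d0; have := h.b1
  unfold ph
  rw [sub_self, min_eq_right (show (0 : ℝ) ≤ 2 + 2 * d - 2 * d by linarith),
    max_eq_right (min_le_of_right_le (by linarith))]

lemma ph_abs (h : Par a b d) {s : ℝ} (h0 : 0 ≤ s) (h1 : s < 2 + 2 * d) : |ph b d s| ≤ 1 := by
  have := h.d0; have := h.b1; have := h.db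
  unfold ph
  rw [abs_le]
  simp only [max_def, min_def]
  split_ifs <;> constructor <;> linarith

lemma SS_lip (h : Par a b d) {s t : ℝ} (hs : 0 ≤ s) (hst : s ≤ t) :
    |SS a b d t - SS a b d s| ≤ t - s := by
  have key : ∀ (j : ℤ) (x : ℝ), 0 ≤ x → x < 2 + 2 * d →
      |SS a b d (TT a d j + a ^ j * x)| ≤ a ^ j * x ∧
      |SS a b d (TT a d j + a ^ j * x)| ≤ a ^ j * (2 + 2 * d - x) := by
    intro j x h0 h1
    have hz := zp h j
    rw [SS_eq h j h0 h1, abs_mul, abs_mul, abs_neg_one_zpow, one_mul, abs_of_pos hz]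
    have e1 := ph_lip b d x 0
    have e2 := ph_lip b d x (2 + 2 * d)
    rw [ph_zero h, sub_zero, sub_zero, abs_of_nonneg h0] at e1
    rw [ph_end h, sub_zero, abs_sub_comm, abs_of_nonneg (show 0 ≤ 2 + 2 * d - x by linarith)] at e2
    exact ⟨by gcongr, by gcongr⟩
  rcases hst.eq_or_lt with rfl | hlt
  · simp
  obtain ⟨j, y, y0, y1, rfl⟩ := decomp h (hs.trans_lt hlt)
  rcases hs.eq_or_lt with rfl | hs
  · have := (key j y y0 y1).1
    have := TT_pos h j
    have e : SS a b d 0 = 0 := by simp [SS]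
    rw [e, sub_zero]
    linarith
  obtain ⟨i, x, x0, x1, rfl⟩ := decomp h hs
  have hi := zp h i
  have hj := zp h j
  rcases lt_trichotomy i j with hij | rfl | hij
  · have e1 := (key j y y0 y1).1
    have e2 := (key i x x0 x1).2
    have e3 := (TT_mono h).monotone (show i + 1 ≤ j by omega)
    rw [TT_succ h] at e3
    refine (abs_sub _ _).trans ?_
    nlinarith
  · rw [SS_eq h i y0 y1, SS_eq h i x0 x1, ← mul_sub, abs_mul, abs_mul, abs_neg_one_zpow, one_mul,
      abs_of_pos hi]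
    have e1 := ph_lip b d y x
    have : x ≤ y := by nlinarith
    rw [abs_of_nonneg (sub_nonneg.2 this)] at e1
    nlinarith
  · exfalso
    have e3 := (TT_mono h).monotone (show j + 1 ≤ i by omega)
    rw [TT_succ h] at e3
    nlinarith

lemma SS_fin (h : Par a b d) {H : ℝ} (hH : H ≠ 0) (T : ℝ) :
    ({t | 0 ≤ t ∧ SS a b d t = H} ∩ Iic T).Finite := by
  obtain ⟨i0, h1, h2⟩ := exists_mem_Ico_zpow (abs_pos.2 hH) h.a1
  have hT := JJ_spec h (show 0 < max T 1 by positivity)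
  refine ((Set.finite_Icc i0 (JJ a d (max T 1))).biUnion (t := fun j =>
    (fun s => TT a d j + a ^ j * s) '' {H / ((-1) ^ j * a ^ j), 2 * b - H / ((-1) ^ j * a ^ j),
      H / ((-1) ^ j * a ^ j) + 2 * d, 2 + 2 * d - H / ((-1) ^ j * a ^ j)})
      fun j _ => (Set.toFinite _).image _).subset ?_
  rintro t ⟨⟨t0, ht⟩, htT⟩
  have t0 : 0 < t := by
    refine t0.lt_of_ne ?_
    rintro rfl
    exact hH (by simpa [SS] using ht.symm)
  obtain ⟨j, s, s0, s1, rfl⟩ := decomp h t0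
  rw [SS_eq h j s0 s1] at ht
  have hz := zp h j
  simp only [mem_iUnion]
  refine ⟨j, ⟨?_, ?_⟩, s, ?_, rfl⟩
  · have e := ph_abs h s0 s1
    rw [← ht, abs_mul, abs_mul, abs_neg_one_zpow, one_mul, abs_of_pos hz] at h1
    exact (zpow_le_zpow_iff_right₀ h.a1).1 (h1.trans (by nlinarith))
  · have e : TT a d j < TT a d (JJ a d (max T 1) + 1) := by
      have := le_max_left T 1
      have : TT a d j + a ^ j * s ≤ T := htT
      nlinarith [hT.2]
    have := (TT_mono h).lt_iff_lt.1 e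
    omega
  · have e : H / ((-1) ^ j * a ^ j) = ph b d s := by
      rw [← ht, mul_div_cancel_left₀]
      exact mul_ne_zero (zpow_ne_zero _ (by norm_num)) hz.ne'
    rw [e]
    simp only [mem_insert_iff, mem_singleton_iff, ph, max_def, min_def]
    split_ifs <;> simp

lemma mem_starts (h : Par a b d) {H : ℝ} (hH : H ≠ 0) {t : ℝ} (h0 : 0 ≤ t)
    (ht : SS a b d t = H) : t ∈ starts (SS a b d) H := by
  refine ⟨⟨h0, ht⟩, mem_connectedComponentIn ⟨h0, ht⟩, fun s hs => ?_⟩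
  by_contra hc
  have h1 := isPreconnected_connectedComponentIn.Icc_subset hs
    (mem_connectedComponentIn (F := {t | 0 ≤ t ∧ SS a b d t = H}) ⟨h0, ht⟩)
  refine Set.Icc_infinite (not_le.1 hc) ((SS_fin h hH t).subset fun x hx => ⟨?_, hx.2⟩)
  exact connectedComponentIn_subset _ _ (h1 hx)

lemma traj (h : Par a b d) : Traj (SS a b d) := by
  refine ⟨by simp [SS], fun s t hs ht => ?_, fun H hH T => (SS_fin h hH T).subset
    fun t ht => ⟨ht.1.1, ht.2⟩⟩
  rcases le_total s t with h1 | h1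
  · rw [abs_sub_comm, abs_sub_comm s, abs_of_nonneg (sub_nonneg.2 h1)]
    exact SS_lip h hs h1
  · rw [abs_of_nonneg (sub_nonneg.2 h1)]
    exact SS_lip h ht h1

lemma vt_le (S : ℝ → ℝ) (H : ℝ) (i : ℕ) (F : Finset ℝ) (t : ℝ) (hc : F.card = i + 1)
    (hF : ∀ x ∈ F, x ∈ starts S H ∧ x ≤ t) : visitTime S H i ≤ ENNReal.ofReal t := by
  refine iInf₂_le_of_le t ?_ le_rfl
  rw [← hc, ← Set.encard_coe_eq_coe_finsetCard]
  exact Set.encard_le_encard fun x hx => hF x hx

noncomputable def so (b d x : ℝ) : ℝ := if x ≤ b then x else x + 2 * d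

lemma ph_so (h : Par a b d) {x : ℝ} (h1 : x < 1) : ph b d (so b d x) = x := by
  have := h.d0; have := h.b1; have := h.db
  unfold ph so
  simp only [max_def, min_def]
  split_ifs <;> linarith

lemma ph_ret (h : Par a b d) {x : ℝ} (h1 : x < 1) : ph b d (2 + 2 * d - x) = x := by
  have := h.d0; have := h.b1; have := h.db
  unfold ph
  simp only [max_def, min_def]
  split_ifs <;> linarith

lemma ph_mid (h : Par a b d) {x : ℝ} (h0 : b - d ≤ x) (h1 : x ≤ b) : ph b d (2 * b - x) = x := by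
  have := h.d0; have := h.b1; have := h.db
  unfold ph
  simp only [max_def, min_def]
  split_ifs <;> linarith

structure Pos (a H : ℝ) (n : ℤ) : Prop where
  h0 : H ≠ 0
  sg : (-1) ^ n * |H| = H
  lo : a ^ n ≤ |H|
  hi : |H| < a ^ (n + 2)

lemma exists_pos (h : Par a b d) {H : ℝ} (hH : H ≠ 0) : ∃ n, Pos a H n := by
  obtain ⟨k, h1, h2⟩ := exists_mem_Ico_zpow (abs_pos.2 hH) h.a1
  by_cases e : (-1) ^ k * |H| = H
  · exact ⟨k, hH, e, h1, h2.trans (zpow_lt_zpow_right₀ h.a1 (by omega))⟩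
  · refine ⟨k - 1, hH, ?_, (zpow_le_zpow_right₀ h.a1.le (by omega)).trans h1, ?_⟩
    · rw [zpow_sub_one₀ (by norm_num)]
      rcases Int.even_or_odd k with hk | hk
      · rw [hk.neg_one_zpow] at e ⊢
        rcases abs_cases H with h3 | h3
        · exact absurd (by rw [h3.1]; ring) e
        · rw [h3.1]; norm_num
      · rw [hk.neg_one_zpow] at e ⊢
        rcases abs_cases H with h3 | h3
        · rw [h3.1]; norm_num
        · exact absurd (by rw [h3.1]; ring) e
    · rwa [show k - 1 + 2 = k + 1 by ring]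

noncomputable def oo (a b d H : ℝ) (n : ℤ) (i : ℕ) : ℝ :=
  TT a d (n + 2 * (i / 2 : ℕ) + 2) + a ^ (n + 2 * (i / 2 : ℕ) + 2) *
    (if i % 2 = 0 then so b d (|H| / a ^ (n + 2 * (i / 2 : ℕ) + 2))
      else 2 + 2 * d - |H| / a ^ (n + 2 * (i / 2 : ℕ) + 2))

variable {H : ℝ} {n : ℤ}

lemma x_bd (h : Par a b d) (hp : Pos a H n) (k : ℕ) :
    0 < |H| / a ^ (n + 2 * k + 2) ∧ |H| / a ^ (n + 2 * k + 2) < 1 :=
  ⟨div_pos (abs_pos.2 hp.h0) (zp h _), (div_lt_one (zp h _)).2
    (hp.hi.trans_le (zpow_le_zpow_right₀ h.a1.le (by omega)))⟩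

lemma visit (h : Par a b d) (hp : Pos a H n) (k : ℕ) {s : ℝ} (s0 : 0 ≤ s) (s1 : s < 2 + 2 * d)
    (hs : ph b d s = |H| / a ^ (n + 2 * k + 2)) :
    TT a d (n + 2 * k + 2) + a ^ (n + 2 * k + 2) * s ∈ starts (SS a b d) H := by
  have hz := zp h (n + 2 * k + 2)
  refine mem_starts h hp.h0 (by have := TT_pos h (n + 2 * k + 2); positivity) ?_
  rw [SS_eq h _ s0 s1, hs, mul_assoc, mul_div_cancel₀ _ hz.ne', add_assoc,
    zpow_add₀ (by norm_num), Even.neg_one_zpow (n := 2 * k + 2) ⟨k + 1, by ring⟩, mul_one, hp.sg]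

lemma so_bd (h : Par a b d) (x : ℝ) : x ≤ so b d x ∧ so b d x ≤ x + 2 * d := by
  have := h.d0
  unfold so
  split_ifs <;> constructor <;> linarith

lemma oo_even (k : ℕ) : oo a b d H n (2 * k) = TT a d (n + 2 * k + 2) +
    a ^ (n + 2 * k + 2) * so b d (|H| / a ^ (n + 2 * k + 2)) := by
  simp [oo]

lemma oo_odd (k : ℕ) : oo a b d H n (2 * k + 1) = TT a d (n + 2 * k + 2) +
    a ^ (n + 2 * k + 2) * (2 + 2 * d - |H| / a ^ (n + 2 * k + 2)) := by
  simp [oo, show (2 * k + 1) / 2 = k by omega]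

lemma oo_mem (h : Par a b d) (hp : Pos a H n) (i : ℕ) : oo a b d H n i ∈ starts (SS a b d) H := by
  have := h.d0
  obtain ⟨k, rfl | rfl⟩ := Nat.even_or_odd' i
  · have hx := x_bd h hp k
    have hs := so_bd h (|H| / a ^ (n + 2 * k + 2))
    rw [oo_even]
    exact visit h hp k (by linarith) (by linarith) (ph_so h hx.2)
  · have hx := x_bd h hp k
    rw [oo_odd]
    exact visit h hp k (by linarith) (by linarith) (ph_ret h hx.2)

lemma oo_gap (h : Par a b d) (hp : Pos a H n) (k : ℕ) :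
    oo a b d H n (2 * k + 1) + 2 * a ^ n ≤ oo a b d H n (2 * (k + 1)) := by
  have := h.d0
  have hx := x_bd h hp k
  have hy := x_bd h hp (k + 1)
  have hs := so_bd h (|H| / a ^ (n + 2 * (k + 1 : ℕ) + 2))
  rw [oo_odd, oo_even]
  have e1 := TT_succ h (n + 2 * k + 2)
  have e2 := TT_succ h (n + 2 * k + 2 + 1)
  have e3 : n + 2 * (k + 1 : ℕ) + 2 = n + 2 * k + 2 + 1 + 1 := by push_cast; ring
  have e4 : a ^ n ≤ a ^ (n + 2 * k + 2 + 1) := zpow_le_zpow_right₀ h.a1.le (by omega)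
  have z1 := zp h (n + 2 * k + 2)
  have z2 := zp h (n + 2 * (k + 1 : ℕ) + 2)
  have z3 := zp h n
  rw [← e3] at e2
  nlinarith [mul_pos z1 hx.1, mul_pos z2 (hy.1.trans_le hs.1),
    mul_nonneg (z3.le.trans e4) h.d0]

lemma oo_mono (h : Par a b d) (hp : Pos a H n) : StrictMono (oo a b d H n) := by
  refine strictMono_nat_of_lt_succ fun i => ?_
  obtain ⟨k, rfl | rfl⟩ := Nat.even_or_odd' i
  · have hx := x_bd h hp k
    have hs := so_bd h (|H| / a ^ (n + 2 * k + 2))
    have z1 := zp h (n + 2 * k + 2)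
    rw [oo_odd, oo_even]
    nlinarith
  · have := oo_gap h hp k
    have z3 := zp h n
    rw [show 2 * k + 1 + 1 = 2 * (k + 1) by ring]
    linarith

lemma vt_oo (h : Par a b d) (hp : Pos a H n) (i : ℕ) :
    visitTime (SS a b d) H i ≤ ENNReal.ofReal (oo a b d H n i) := by
  refine vt_le _ _ i ((Finset.range (i + 1)).image (oo a b d H n)) _ ?_ ?_
  · rw [Finset.card_image_of_injective _ (oo_mono h hp).injective, Finset.card_range]
  · intro x hx
    obtain ⟨j, hj, rfl⟩ := Finset.mem_image.1 hx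
    exact ⟨oo_mem h hp j, (oo_mono h hp).monotone (by simp at hj; omega)⟩

lemma vt_gain (h : Par a b d) (hp : Pos a H n) (m : ℕ) (h0 : b - d ≤ |H| / a ^ (n + 2 * m + 2))
    (h1 : |H| / a ^ (n + 2 * m + 2) < b) :
    visitTime (SS a b d) H (2 * (m + 1)) ≤ ENNReal.ofReal (oo a b d H n (2 * m + 1)) := by
  have := h.d0; have := h.b1
  have hx := x_bd h hp m
  have z1 := zp h (n + 2 * m + 2)
  set e := TT a d (n + 2 * m + 2) + a ^ (n + 2 * m + 2) * (2 * b - |H| / a ^ (n + 2 * m + 2))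
    with he
  have e1 : oo a b d H n (2 * m) < e := by
    rw [oo_even, so, if_pos h1.le, he]; nlinarith
  have e2 : e < oo a b d H n (2 * m + 1) := by
    rw [oo_odd, he]; nlinarith
  refine vt_le _ _ _ (insert e ((Finset.range (2 * m + 2)).image (oo a b d H n))) _ ?_ ?_
  · rw [Finset.card_insert_of_notMem, Finset.card_image_of_injective _ (oo_mono h hp).injective,
      Finset.card_range]
    · ring
    · intro hx
      obtain ⟨j, _, hj⟩ := Finset.mem_image.1 hx
      rw [← hj, (oo_mono h hp).lt_iff_lt] at e1 e2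
      omega
  · intro x hx'
    rcases Finset.mem_insert.1 hx' with rfl | hx'
    · exact ⟨visit h hp m (by linarith) (by linarith) (ph_mid h h0 h1.le), e2.le⟩
    · obtain ⟨j, hj, rfl⟩ := Finset.mem_image.1 hx'
      exact ⟨oo_mem h hp j, (oo_mono h hp).monotone (by simp at hj; omega)⟩

noncomputable def uu (a d H : ℝ) (n : ℤ) (i : ℕ) : ℝ :=
  if i % 2 = 0 then ((2 + 2 * d) / (a - 1) + 2 * d) * a ^ n * a ^ 2 * (a ^ 2) ^ (i / 2) + |H|
  else (2 + 2 * d) / (a - 1) * a ^ n * a ^ 3 * (a ^ 2) ^ (i / 2) - |H|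

lemma oo_le (h : Par a b d) (i : ℕ) : oo a b d H n i ≤ uu a d H n i := by
  have ha : a ≠ 0 := by linarith [h.a1]
  have ez : ∀ k : ℕ, a ^ (n + 2 * k + 2) = a ^ n * a ^ 2 * (a ^ 2) ^ k := fun k => by
    rw [zpow_add₀ ha, zpow_add₀ ha, ← pow_mul, ← zpow_natCast a (2 * k)]
    push_cast
    rw [zpow_ofNat]
    ring
  obtain ⟨k, rfl | rfl⟩ := Nat.even_or_odd' i
  · have hs := (so_bd h (|H| / a ^ (n + 2 * k + 2))).2
    have z1 := zp h (n + 2 * k + 2)
    have e := mul_le_mul_of_nonneg_left hs z1.le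
    rw [mul_add, mul_div_cancel₀ _ z1.ne'] at e
    rw [oo_even, uu, if_pos (by omega), show 2 * k / 2 = k by omega, TT]
    rw [ez] at *
    nlinarith
  · have z1 := zp h (n + 2 * k + 2)
    have e := TT_succ h (n + 2 * k + 2)
    rw [oo_odd, uu, if_neg (by omega), show (2 * k + 1) / 2 = k by omega, mul_sub,
      mul_div_cancel₀ _ z1.ne', ← add_sub_assoc, ← e, TT, zpow_add_one₀ ha, ez]
    apply le_of_eq
    ring

lemma uu_sum0 {p a : ℝ} (r1 : (1 - p) ^ 2 < 1) (r2 : ((1 - p) * a) ^ 2 < 1) (d H : ℝ) (n : ℤ) :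
    HasSum (fun i => (1 - p) ^ i * p * uu a d H n i)
      ((p * (((2 + 2 * d) / (a - 1) + 2 * d) * a ^ n * a ^ 2) * (1 - ((1 - p) * a) ^ 2)⁻¹ +
        p * |H| * (1 - (1 - p) ^ 2)⁻¹) +
       (p * (1 - p) * ((2 + 2 * d) / (a - 1) * a ^ n * a ^ 3) * (1 - ((1 - p) * a) ^ 2)⁻¹ -
        p * (1 - p) * |H| * (1 - (1 - p) ^ 2)⁻¹)) := by
  have g1 := hasSum_geometric_of_lt_one (sq_nonneg _) r1
  have g2 := hasSum_geometric_of_lt_one (sq_nonneg _) r2
  refine HasSum.even_add_odd ?_ ?_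
  · refine ((g2.mul_left _).add (g1.mul_left _)).congr_fun fun k => ?_
    rw [uu, if_pos (by omega), show 2 * k / 2 = k by omega, pow_mul, mul_pow, mul_pow]
    ring
  · refine ((g2.mul_left _).sub (g1.mul_left _)).congr_fun fun k => ?_
    rw [uu, if_neg (by omega), show (2 * k + 1) / 2 = k by omega, pow_succ, pow_mul, mul_pow,
      mul_pow]
    ring

lemma uu_sum {p : ℝ} (p0 : 0 < p) (p1 : p < 1) (d H : ℝ) (n : ℤ) :
    HasSum (fun i => (1 - p) ^ i * p * uu (2 / (2 - p)) d H n i)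
      (|H| * (p / (2 - p)) + (2 / (2 - p)) ^ n * (8 * (1 + d) / p + 8 * d / (4 - 3 * p))) := by
  have w0 : 0 < 2 - p := by linarith
  have w1 : 0 < 4 - 3 * p := by linarith
  have q0 : 0 < 1 - p := by linarith
  have r1 : (1 - p) ^ 2 < 1 := by nlinarith
  have r2 : ((1 - p) * (2 / (2 - p))) ^ 2 < 1 := by
    apply pow_lt_one₀ (by positivity) _ two_ne_zero
    rw [mul_div_assoc', div_lt_one w0]; linarith
  have e1 : 2 / (2 - p) - 1 = p / (2 - p) := by field_simp; ring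
  have e2 : 1 - ((1 - p) * (2 / (2 - p))) ^ 2 = p * (4 - 3 * p) / (2 - p) ^ 2 := by
    field_simp; ring
  have e3 : 1 - (1 - p) ^ 2 = p * (2 - p) := by ring
  have := uu_sum0 r1 r2 d H n
  rw [e1, e2, e3] at this
  generalize (2 / (2 - p)) ^ n = A at this ⊢
  generalize (fun i => (1 - p) ^ i * p * uu (2 / (2 - p)) d H n i) = f at this ⊢
  refine (congrArg (HasSum f ·) ?_).mp this
  have w2 : 4 - p * 3 ≠ 0 := by linarith
  rw [mul_comm 3 p]
  field_simp
  ring

lemma exp_le {p : ℝ} (p0 : 0 < p) (p1 : p < 1) (S : ℝ → ℝ) (H : ℝ) (u : ℕ → ℝ) (x : ℝ)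
    (hu : ∀ i, 0 ≤ u i) (hv : ∀ i, visitTime S H i ≤ ENNReal.ofReal (u i))
    (hs : HasSum (fun i => (1 - p) ^ i * p * u i) x) : expTime p S H ≤ ENNReal.ofReal x := by
  have q0 : 0 < 1 - p := by linarith
  rw [← hs.tsum_eq, ENNReal.ofReal_tsum_of_nonneg (fun i => by have := hu i; positivity)
    hs.summable]
  refine ENNReal.tsum_le_tsum fun i => ?_
  rw [ENNReal.ofReal_mul (by positivity) (q := u i)]
  gcongr
  exact hv i

theorem result : ∀ p : ℝ, 0 < p → p < 1 → ∃ S : ℝ → ℝ, Traj S ∧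
    value p S < ENNReal.ofReal (p / (2 - p) + 8 / p) := by
  intro p p0 p1
  have w0 : 0 < 2 - p := by linarith
  have q0 : 0 < 1 - p := by linarith
  set a := 2 / (2 - p) with ha
  have a1 : 1 < a := by rw [ha, lt_div_iff₀ w0]; linarith
  obtain ⟨m, hm⟩ := pow_unbounded_of_one_lt 4 a1
  set c := (a ^ (2 * m + 2))⁻¹ with hc
  have c0 : 0 < c := by positivity
  have c4 : c ≤ 1 / 4 := by
    rw [hc, one_div]
    exact inv_anti₀ (by norm_num) (hm.le.trans (pow_le_pow_right₀ a1.le (by omega)))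
  set g := (1 - p) ^ (2 * (m + 1)) * p with hg
  have g0 : 0 < g := by positivity
  have g1 : g ≤ 1 := mul_le_one₀ (pow_le_one₀ q0.le (by linarith)) p0.le p1.le
  set e := p * g / 4 with he
  have e0 : 0 < e := by positivity
  have e1 : e ≤ 1 := by nlinarith
  have h : Par a (c * (1 + e)) (c * e) := ⟨a1, by positivity, by nlinarith, by nlinarith⟩
  have p8 : 8 < 8 / p := by rw [lt_div_iff₀ p0]; linarith
  have hX : 8 * (1 + c * e) / p + 8 * (c * e) / (4 - 3 * p) ≤ 8 / p + g := by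
    have i1 : 8 * (c * e) / (4 - 3 * p) ≤ 8 * (c * e) / p :=
      div_le_div_of_nonneg_left (by positivity) p0 (by linarith)
    have i2 : 8 * (1 + c * e) / p + 8 * (c * e) / p = 8 / p + 4 * c * g := by
      rw [he]; field_simp; ring
    nlinarith
  set v := p / (2 - p) + max ((8 / p + g) / (1 + e)) (8 / p - g) with hv
  have hv1 : v < p / (2 - p) + 8 / p := by
    rw [hv]
    gcongr
    refine max_lt ?_ (by linarith)
    rw [div_lt_iff₀ (by linarith), mul_add, he]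
    have : 8 / p * (p * g / 4) = 2 * g := by field_simp; ring
    linarith
  refine ⟨SS a (c * (1 + e)) (c * e), traj h, lt_of_le_of_lt ?_
    ((ENNReal.ofReal_lt_ofReal_iff (by positivity)).2 hv1)⟩
  refine iSup₂_le fun H hH => ?_
  have hH0 := abs_pos.2 hH
  obtain ⟨n, hp⟩ := exists_pos h hH
  have hA := zp h n
  have o0 : ∀ i, 0 ≤ oo a (c * (1 + e)) (c * e) H n i := fun i => (oo_mem h hp i).1.1
  have hs := uu_sum p0 p1 (c * e) H n
  rw [← ha] at hs
  apply ENNReal.div_le_of_le_mul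
  rw [← ENNReal.ofReal_mul (by rw [hv]; positivity)]
  by_cases hc1 : (1 + e) * a ^ n ≤ |H|
  · refine (exp_le p0 p1 _ H _ _ (fun i => (o0 i).trans (oo_le h i))
      (fun i => (vt_oo h hp i).trans (ENNReal.ofReal_le_ofReal (oo_le h i))) hs).trans
      (ENNReal.ofReal_le_ofReal ?_)
    have i1 := le_max_left ((8 / p + g) / (1 + e)) (8 / p - g)
    have i2 : a ^ n * (8 / p + g) ≤ (8 / p + g) / (1 + e) * |H| := by
      rw [div_mul_eq_mul_div, le_div_iff₀ (by linarith)]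
      nlinarith
    nlinarith
  · have ez : a ^ (n + 2 * m + 2) = a ^ n * a ^ (2 * m + 2) := by
      rw [add_assoc, zpow_add₀ (by linarith), ← zpow_natCast a (2 * m + 2)]
      push_cast
      rfl
    have ex : |H| / a ^ (n + 2 * m + 2) = c * (|H| / a ^ n) := by
      rw [ez, hc]; field_simp
    have l1 : 1 ≤ |H| / a ^ n := (one_le_div hA).2 hp.lo
    have l2 : |H| / a ^ n < 1 + e := (div_lt_iff₀ hA).2 (not_le.1 hc1)
    have hg := vt_gain h hp m (by rw [ex]; nlinarith) (by rw [ex]; nlinarith)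
    have hs' := hs.update (2 * (m + 1)) (g * oo a (c * (1 + e)) (c * e) H n (2 * m + 1))
    refine (exp_le p0 p1 _ H (Function.update (uu a (c * e) H n) (2 * (m + 1))
      (oo a (c * (1 + e)) (c * e) H n (2 * m + 1))) _ (fun i => ?_) (fun i => ?_)
      (hs'.congr_fun fun i => ?_)).trans (ENNReal.ofReal_le_ofReal ?_)
    · by_cases hi : i = 2 * (m + 1)
      · rw [hi, Function.update_self]; exact o0 _
      · rw [Function.update_of_ne hi]; exact (o0 i).trans (oo_le h i)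
    · by_cases hi : i = 2 * (m + 1)
      · rw [hi, Function.update_self]; exact hg
      · rw [Function.update_of_ne hi]
        exact (vt_oo h hp i).trans (ENNReal.ofReal_le_ofReal (oo_le h i))
    · by_cases hi : i = 2 * (m + 1)
      · rw [hi, Function.update_self, Function.update_self]
      · rw [Function.update_of_ne hi, Function.update_of_ne hi]
    · have i1 := le_max_right ((8 / p + g) / (1 + e)) (8 / p - g)
      have i2 := (oo_gap h hp m).trans (oo_le h _)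
      have i3 := mul_le_mul_of_nonneg_left i2 g0.le
      have i4 := mul_le_mul_of_nonneg_left hX hA.le
      have i5 := mul_le_mul_of_nonneg_left hp.lo (show 0 ≤ 8 / p - g by linarith)
      have i6 := mul_le_mul_of_nonneg_right i1 hH0.le
      rw [hv]
      nlinarith

end Pool.Agent.Results.MP_61cfb3_pr.Retrace
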